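import Pool.Agent.N411.CV.Cover
import Pool.Agent.Run7.h335.EC8.Main

set_option autoImplicit false
set_option linter.unusedSectionVars false

/-!
Faithful circuit covers of weightings which are near-constant on a spanning two-edge-connected
subgraph `H`, with smaller or larger weights (up to twice the weights on `H`) outside: sum of a cover
of a weighting that is constant on `H` and of a cover of a near-constant weighting.
-/

namespace Pool.Agent.Run7.h335.UM

open Finset
open Pool.Agent.Helper879.ECD (F2 IsFlow f2_add_self f2_cases cn)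
open Pool.Agent.H126R2.CDC (MGraph isFl_iff)
open Pool.Agent.H126R2.NC (TC rep InIntCone cover_minus countP_sum f2_ne)
open Pool.Agent.TH399.CC (intCone_add)
open Pool.Agent.N411.CV
open Pool.Agent.Run7.h335.EC8 (Two span4)

variable {V E : Type} [Fintype V] [DecidableEq V] [Fintype E] [DecidableEq E]

/-- Even weights within a factor of `8 / 7` that are constant on the two-edge cuts. -/
theorem cover8 (G : MGraph V E) (hbr : G.Bridgeless) (v : E × Bool → V)
    (hv : ∀ e, G.ends e = s(v (e, false), v (e, true))) (p : E → ℕ) (hev : ∀ e, Even (p e))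
    (htc : ∀ e f, TC (fun e => v (e, false)) (fun e => v (e, true)) e f → p e = p f)
    (hr : ∀ e f, 7 * p e ≤ 8 * p f) : InIntCone G p := by
  classical
  by_cases hE : IsEmpty E
  · exact ⟨0, by simp, fun e => (hE.false e).elim⟩
  rw [not_isEmpty_iff] at hE
  obtain ⟨col, hcol1, hcol2⟩ := colouring_bridgeless hasCol_eight (fun e => v (e, false))
    (fun e => v (e, true)) (G.no_one_cut hbr v hv)
  obtain ⟨e0, -, he0⟩ := Finset.exists_max_image (univ : Finset E) p
    (Finset.univ_nonempty)
  obtain ⟨e1, -, he1⟩ := Finset.exists_min_image (univ : Finset E) p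
    (Finset.univ_nonempty)
  choose q hq using hev
  have hqp : ∀ e, p e = 2 * q e := fun e => by rw [hq e]; ring
  set M := q e0 with hM
  set T := q e0 - q e1 with hT
  have hle0 : ∀ e, q e ≤ M := fun e => by
    have := he0 e (Finset.mem_univ _)
    rw [hqp, hqp] at this; omega
  have hle1 : ∀ e, q e1 ≤ q e := fun e => by
    have := he1 e (Finset.mem_univ _)
    rw [hqp, hqp] at this; omega
  have h9 : 8 * T ≤ M := by
    have := hr e0 e1
    rw [hqp, hqp] at this
    omega
  have hcov : ∀ (t : ℕ) (γ : C8), ∃ F : Multiset (Finset E),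
      (∀ C ∈ F, G.IsCircuit C) ∧ ∀ e, F.countP (fun C => e ∈ C) =
        if e ∈ univ.filter (fun e => t < M - q e ∧ col e = γ) then 0 else 2 := by
    intro t γ
    apply cover_minus G v hv
    apply hcol2 _ γ
    · intro e he
      exact (Finset.mem_filter.1 he).2.2
    · intro e he f hef
      rw [Finset.mem_filter] at he ⊢
      have h1 := htc e f hef
      rw [hqp, hqp] at h1
      refine ⟨Finset.mem_univ _, ?_, ?_⟩
      · have := he.2.1; omega
      · rw [← hcol1 e f hef]; exact he.2.2
  choose F hF1 hF2 using hcov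
  obtain ⟨F0, hF01, hF02⟩ := G.exists_cdc hbr
  refine ⟨∑ x ∈ (Finset.range T) ×ˢ (univ : Finset (C8)), F x.1 x.2 +
    (M - 8 * T) • F0, ?_, ?_⟩
  · intro C hC
    rw [Multiset.mem_add] at hC
    rcases hC with hC | hC
    · rw [Multiset.mem_sum] at hC
      obtain ⟨c, _, hc⟩ := hC
      exact hF1 _ _ C hc
    · exact hF01 C (Multiset.mem_of_mem_nsmul hC)
  · intro e
    rw [Multiset.countP_add, countP_sum, Multiset.countP_nsmul, hF02 e]
    have h1 : ∑ x ∈ (Finset.range T) ×ˢ (univ : Finset (C8)),
        (F x.1 x.2).countP (fun C => e ∈ C) + 2 * (M - q e) = 16 * T := by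
      rw [Finset.sum_product]
      dsimp only
      have h2 : ∀ t ∈ Finset.range T, ∑ γ : C8, (F t γ).countP (fun C => e ∈ C) +
          (if t < M - q e then 2 else 0) = 16 := by
        intro t _
        have h3 : ∀ γ ∈ (univ : Finset (C8)), (F t γ).countP (fun C => e ∈ C) +
            (if γ = col e then (if t < M - q e then 2 else 0) else 0) = 2 := by
          intro γ _
          rw [hF2 t γ e]
          by_cases h4 : t < M - q e
          · by_cases h5 : γ = col e
            · subst h5; simp [h4]
            · simp [h4, h5, Ne.symm h5]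
          · simp [h4]
        have h4 := Finset.sum_congr rfl h3
        rw [Finset.sum_add_distrib, Finset.sum_ite_eq'] at h4
        simpa using h4
      have h5 := Finset.sum_congr rfl h2
      rw [Finset.sum_add_distrib, ← Finset.sum_filter, Finset.sum_const, Finset.sum_const,
        Finset.card_range] at h5
      have h6 : ((Finset.range T).filter (fun t => t < M - q e)).card = M - q e := by
        have h7 : (Finset.range T).filter (fun t => t < M - q e) = Finset.range (M - q e) := by
          ext t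
          rw [Finset.mem_filter, Finset.mem_range, Finset.mem_range]
          have := hle1 e
          omega
        rw [h7, Finset.card_range]
      rw [h6] at h5
      simp only [smul_eq_mul] at h5
      omega
    have h2 := hle0 e
    have h3 := hqp e
    have h4 : (M - 8 * T) * 2 + 16 * T = 2 * M := by omega
    omega

lemma cn_univ_ne_one (a b : E → V) (H : Finset E) (hH : Two a b H) (B : Finset V) :
    cn a b univ B ≠ 1 := by
  intro h
  by_cases h1 : B.Nonempty
  · by_cases h2 : B = univ
    · subst h2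
      unfold cn at h
      simp at h
    · have h3 := hH B h1 h2
      have h4 : cn a b H B ≤ cn a b univ B := by
        unfold cn
        exact Finset.card_le_card (Finset.filter_subset_filter _ (Finset.subset_univ _))
      omega
  · rw [Finset.not_nonempty_iff_eq_empty] at h1
    subst h1
    unfold cn at h
    simp at h

lemma bridgeless (G : MGraph V E) (v : E × Bool → V)
    (hv : ∀ e, G.ends e = s(v (e, false), v (e, true))) (H : Finset E)
    (hH : Two (fun e => v (e, false)) (fun e => v (e, true)) H) : G.Bridgeless := by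
  classical
  obtain ⟨F, hF1, hF2⟩ := cover_minus G v hv ∅ (by
    intro B
    rw [Finset.sdiff_empty]
    exact cn_univ_ne_one _ _ H hH B)
  intro e
  have h := hF2 e
  rw [if_neg (Finset.notMem_empty e)] at h
  have h1 : 0 < F.countP (fun C => e ∈ C) := by omega
  rw [Multiset.countP_pos] at h1
  obtain ⟨C, hC, heC⟩ := h1
  exact ⟨C, hF1 C hC, heC⟩

/-- the two edges of a two-edge cut are edges of `H` -/
lemma tc_mem (a b : E → V) (H : Finset E) (hH : Two a b H) {e f : E} (h : TC a b e f) :
    e = f ∨ (e ∈ H ∧ f ∈ H) := by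
  classical
  by_cases hef : e = f
  · exact Or.inl hef
  right
  obtain ⟨z, hz⟩ := h
  let X : Finset V := univ.filter (fun u => z u = 1)
  have hX : ∀ g, ¬ (a g ∈ X ↔ b g ∈ X) ↔ (g = e ∨ g = f) := by
    intro g
    simp only [X, Finset.mem_filter, Finset.mem_univ, true_and]
    rw [f2_ne, hz g]
    by_cases h5 : g = e
    · subst h5
      simp [hef]
    · by_cases h6 : g = f
      · simp [h6, Ne.symm hef]
      · simp [h5, h6]
  have h1 : X.Nonempty := by
    rw [Finset.nonempty_iff_ne_empty]
    intro h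
    have := (hX e).2 (Or.inl rfl)
    rw [h] at this
    simp at this
  have h2 : X ≠ univ := by
    intro h
    have := (hX e).2 (Or.inl rfl)
    rw [h] at this
    simp at this
  have h3 := hH X h1 h2
  unfold cn at h3
  have h4 : H.filter (fun g => ¬ (a g ∈ X ↔ b g ∈ X)) ⊆ {e, f} := by
    intro g hg
    rw [Finset.mem_filter, hX g] at hg
    simp [hg.2]
  have h5 : ({e, f} : Finset E).card = 2 := Finset.card_pair hef
  have h6 : H.filter (fun g => ¬ (a g ∈ X ↔ b g ∈ X)) = {e, f} :=
    Finset.eq_of_subset_of_card_le h4 (by rw [h5]; exact h3)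
  constructor
  · have : e ∈ H.filter (fun g => ¬ (a g ∈ X ↔ b g ∈ X)) := by rw [h6]; simp
    exact (Finset.mem_filter.1 this).1
  · have : f ∈ H.filter (fun g => ¬ (a g ∈ X ↔ b g ∈ X)) := by rw [h6]; simp
    exact (Finset.mem_filter.1 this).1

/-- weights divisible by four -/
theorem main4 (G : MGraph V E) (v : E × Bool → V)
    (hv : ∀ e, G.ends e = s(v (e, false), v (e, true))) (H : Finset E)
    (hH : Two (fun e => v (e, false)) (fun e => v (e, true)) H) (w : E → ℕ)
    (htc : ∀ e f, TC (fun e => v (e, false)) (fun e => v (e, true)) e f → w e = w f)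
    (l h : ℕ) (h4 : ∀ e, 4 ∣ w e) (hlh : 7 * h ≤ 8 * l) (hin : ∀ e ∈ H, l ≤ w e ∧ w e ≤ h)
    (hout : ∀ e, e ∉ H → 7 * h ≤ w e + 7 * l ∧ w e + 6 * h ≤ 8 * l) : InIntCone G w := by
  classical
  by_cases hne : H.Nonempty
  swap
  · rw [Finset.not_nonempty_iff_eq_empty] at hne
    refine span4 G v hv H hH (∑ e, w e) w (fun e he => ?_) h4 fun e => ?_
    · rw [hne] at he
      exact absurd he (Finset.notMem_empty e)
    · have := Finset.single_le_sum (f := w) (fun _ _ => Nat.zero_le _) (Finset.mem_univ e)
      omega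
  obtain ⟨e0, he0⟩ := hne
  choose x hx using h4
  obtain ⟨a, ha1, ha2⟩ : ∃ a, l ≤ 4 * a ∧ ∀ y, l ≤ 4 * y → a ≤ y :=
    ⟨(l + 3) / 4, by omega, fun y hy => by omega⟩
  obtain ⟨b, hb1, hb2⟩ : ∃ b, 4 * b ≤ h ∧ ∀ y, 4 * y ≤ h → y ≤ b :=
    ⟨h / 4, by omega, fun y hy => by omega⟩
  have hinx : ∀ e ∈ H, a ≤ x e ∧ x e ≤ b := by
    intro e he
    have := hin e he
    rw [hx e] at this
    exact ⟨ha2 _ this.1, hb2 _ this.2⟩
  have houtx : ∀ e, e ∉ H → 7 * b ≤ x e + 7 * a ∧ x e + 6 * b ≤ 8 * a := by
    intro e he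
    have := hout e he
    rw [hx e] at this
    omega
  have hab : a ≤ b := by
    have := hinx e0 he0
    omega
  have hba : 7 * b ≤ 8 * a := by omega
  obtain ⟨k, hk⟩ : ∃ k, k + 7 * b = 8 * a := ⟨8 * a - 7 * b, by omega⟩
  obtain ⟨D, hD⟩ : ∃ D, b = a + D := ⟨b - a, by omega⟩
  let q : E → ℕ := fun e => if e ∈ H then x e - k else max (7 * D) (x e - 2 * k)
  have hq1 : ∀ e, 7 * D ≤ q e ∧ q e ≤ 8 * D ∧ q e ≤ x e ∧ x e - q e ≤ 2 * k ∧
      (e ∈ H → x e - q e = k) := by
    intro e
    by_cases he : e ∈ H
    · have h1 := hinx e he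
      have h2 : q e = x e - k := if_pos he
      rw [h2]
      refine ⟨by omega, by omega, by omega, by omega, fun _ => by omega⟩
    · have h1 := houtx e he
      have h2 : q e = max (7 * D) (x e - 2 * k) := if_neg he
      rw [h2]
      refine ⟨by omega, by omega, by omega, by omega, fun h => absurd h he⟩
  have hp1 : InIntCone G (fun e => 4 * (x e - q e)) := by
    refine span4 G v hv H hH k _ (fun e he => ?_) (fun e => ⟨_, rfl⟩) fun e => ?_
    · show 4 * (x e - q e) = 4 * k
      rw [(hq1 e).2.2.2.2 he]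
    · show 4 * (x e - q e) ≤ 8 * k
      have := (hq1 e).2.2.2.1
      omega
  have hp2 : InIntCone G (fun e => 4 * q e) := by
    refine cover8 G (bridgeless G v hv H hH) v hv _ (fun e => ⟨2 * q e, by ring⟩) ?_ ?_
    · intro e f hef
      show 4 * q e = 4 * q f
      rcases tc_mem _ _ H hH hef with h1 | ⟨h1, h2⟩
      · rw [h1]
      · have h3 := htc e f hef
        rw [hx, hx] at h3
        have h4 : q e = x e - k := if_pos h1
        have h5 : q f = x f - k := if_pos h2
        rw [h4, h5]
        omega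
    · intro e f
      show 7 * (4 * q e) ≤ 8 * (4 * q f)
      have h1 := hq1 e
      have h2 := hq1 f
      omega
  refine intCone_add G hp1 hp2 fun e => ?_
  show w e = 4 * (x e - q e) + 4 * q e
  have h1 := hq1 e
  rw [hx e]
  omega

/-- weights divisible by `88` -/
theorem main88 (G : MGraph V E) (v : E × Bool → V)
    (hv : ∀ e, G.ends e = s(v (e, false), v (e, true))) (H : Finset E)
    (hH : Two (fun e => v (e, false)) (fun e => v (e, true)) H) (w : E → ℕ)
    (htc : ∀ e f, TC (fun e => v (e, false)) (fun e => v (e, true)) e f → w e = w f)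
    (l h : ℕ) (h88 : ∀ e, 88 ∣ w e) (hlh : 7 * h < 9 * l) (hin : ∀ e ∈ H, l ≤ w e ∧ w e ≤ h)
    (hout : ∀ e, e ∉ H → 7 * h < 2 * w e + 7 * l ∧ 2 * w e + 5 * h < 9 * l) :
    InIntCone G w := by
  classical
  by_cases hne : H.Nonempty
  swap
  · rw [Finset.not_nonempty_iff_eq_empty] at hne
    refine span4 G v hv H hH (∑ e, w e) w (fun e he => ?_) (fun e => ?_) fun e => ?_
    · rw [hne] at he
      exact absurd he (Finset.notMem_empty e)
    · exact dvd_trans (by norm_num) (h88 e)
    · have := Finset.single_le_sum (f := w) (fun _ _ => Nat.zero_le _) (Finset.mem_univ e)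
      omega
  obtain ⟨e0, he0⟩ := hne
  choose x hx using h88
  obtain ⟨a, ha1, ha2⟩ : ∃ a, l ≤ 88 * a ∧ ∀ y, l ≤ 88 * y → a ≤ y :=
    ⟨(l + 87) / 88, by omega, fun y hy => by omega⟩
  obtain ⟨b, hb1, hb2⟩ : ∃ b, 88 * b ≤ h ∧ ∀ y, 88 * y ≤ h → y ≤ b :=
    ⟨h / 88, by omega, fun y hy => by omega⟩
  have hinx : ∀ e ∈ H, a ≤ x e ∧ x e ≤ b := by
    intro e he
    have := hin e he
    rw [hx e] at this
    exact ⟨ha2 _ this.1, hb2 _ this.2⟩
  have houtx : ∀ e, e ∉ H → 7 * b < 2 * x e + 7 * a ∧ 2 * x e + 5 * b < 9 * a := by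
    intro e he
    have := hout e he
    rw [hx e] at this
    omega
  have hab : a ≤ b := by
    have := hinx e0 he0
    omega
  have hba : 7 * b < 9 * a := by omega
  obtain ⟨k, hk⟩ : ∃ k, k + 7 * b + 1 = 9 * a := ⟨9 * a - 7 * b - 1, by omega⟩
  obtain ⟨D, hD⟩ : ∃ D, b = a + D := ⟨b - a, by omega⟩
  let q : E → ℕ := fun e => if e ∈ H then 2 * x e - k else max (7 * D + 1) (2 * x e - 2 * k)
  have hq1 : ∀ e, 7 * D + 1 ≤ q e ∧ q e ≤ 9 * D + 1 ∧ q e ≤ 2 * x e ∧ 2 * x e - q e ≤ 2 * k ∧
      (e ∈ H → 2 * x e - q e = k) := by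
    intro e
    by_cases he : e ∈ H
    · have h1 := hinx e he
      have h2 : q e = 2 * x e - k := if_pos he
      rw [h2]
      refine ⟨by omega, by omega, by omega, by omega, fun _ => by omega⟩
    · have h1 := houtx e he
      have h2 : q e = max (7 * D + 1) (2 * x e - 2 * k) := if_neg he
      rw [h2]
      refine ⟨by omega, by omega, by omega, by omega, fun h => absurd h he⟩
  have hp1 : InIntCone G (fun e => 44 * (2 * x e - q e)) := by
    refine span4 G v hv H hH (11 * k) _ (fun e he => ?_) (fun e => ?_) fun e => ?_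
    · show 44 * (2 * x e - q e) = 4 * (11 * k)
      rw [(hq1 e).2.2.2.2 he]
      ring
    · exact ⟨11 * (2 * x e - q e), by ring⟩
    · show 44 * (2 * x e - q e) ≤ 8 * (11 * k)
      have := (hq1 e).2.2.2.1
      omega
  have hp2 : InIntCone G (fun e => 2 * (22 * q e)) := by
    refine cover_even G (bridgeless G v hv H hH) v hv (fun e => 22 * q e) ?_ ?_
    · intro e f hef
      show 22 * q e = 22 * q f
      rcases tc_mem _ _ H hH hef with h1 | ⟨h1, h2⟩
      · rw [h1]
      · have h3 := htc e f hef
        rw [hx, hx] at h3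
        have h4 : q e = 2 * x e - k := if_pos h1
        have h5 : q f = 2 * x f - k := if_pos h2
        rw [h4, h5]
        omega
    · intro e f
      show 7 * (22 * q e) + 41 ≤ 9 * (22 * q f)
      have h1 := hq1 e
      have h2 := hq1 f
      omega
  refine intCone_add G hp1 hp2 fun e => ?_
  show w e = 44 * (2 * x e - q e) + 2 * (22 * q e)
  have h1 := hq1 e
  rw [hx e]
  omega

end Pool.Agent.Run7.h335.UM
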