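import Pool.Agent.TH399.CC.MainK
import Pool.Agent.Run7.h335.UM.Base

set_option autoImplicit false
set_option linter.unusedSectionVars false

/-!
Graphs all of whose nonempty cuts have at least `K ≥ 4` edges.
-/

namespace Pool.Agent.Run7.h335.UM

open Finset
open Pool.Agent.Helper879.ECD (F2 IsFlow f2_add_self f2_cases cn)
open Pool.Agent.H126R2.CDC (MGraph isFl_iff)
open Pool.Agent.H126R2.NC (TC rep InIntCone cover_minus countP_sum f2_ne)
open Pool.Agent.TH399.CC (intCone_add cover_evenK)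
open Pool.Agent.Run7.h335.EC8 (Two span4)

variable {V E : Type} [Fintype V] [DecidableEq V] [Fintype E] [DecidableEq E]

/-- weights divisible by `8 (K - 2) (2 K + 3)`, here with `K = m + 2` -/
theorem mainK (m : ℕ) (hm : 2 ≤ m) (G : MGraph V E) (v : E × Bool → V)
    (hv : ∀ e, G.ends e = s(v (e, false), v (e, true))) (H : Finset E)
    (hH : Two (fun e => v (e, false)) (fun e => v (e, true)) H)
    (hK : ∀ X : Finset V, cn (fun e => v (e, false)) (fun e => v (e, true)) univ X = 0 ∨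
      m + 2 ≤ cn (fun e => v (e, false)) (fun e => v (e, true)) univ X)
    (w x : E → ℕ) (hx : ∀ e, w e = 8 * m * (2 * m + 7) * x e)
    (a D : ℕ) (hlh : (m + 4) * (a + D) < (3 * m + 4) * a)
    (hin : ∀ e ∈ H, a ≤ x e ∧ x e ≤ a + D)
    (hout : ∀ e, e ∉ H → (m + 4) * D < 2 * m * x e ∧
      2 * m * x e + 4 * D < 4 * m * a + m * D) : InIntCone G w := by
  classical
  -- `k = (3 m + 4) a - (m + 4) (a + D) - 1`
  obtain ⟨k, hk⟩ : ∃ k, k + m * D + 4 * D + 1 = 2 * (m * a) := by
    have h1 : (m + 4) * (a + D) = m * a + m * D + 4 * a + 4 * D := by ring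
    have h2 : (3 * m + 4) * a = 3 * (m * a) + 4 * a := by ring
    rw [h1, h2] at hlh
    exact ⟨2 * (m * a) - m * D - 4 * D - 1, by omega⟩
  let q : E → ℕ := fun e => if e ∈ H then 2 * (m * x e) - k
    else max (m * D + 4 * D + 1) (2 * (m * x e) - 2 * k)
  have hq1 : ∀ e, m * D + 4 * D + 1 ≤ q e ∧ q e ≤ 3 * (m * D) + 4 * D + 1 ∧
      q e ≤ 2 * (m * x e) ∧ 2 * (m * x e) - q e ≤ 2 * k ∧
      (e ∈ H → 2 * (m * x e) - q e = k) := by
    intro e
    by_cases he : e ∈ H
    · have h1 := hin e he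
      have h2 : q e = 2 * (m * x e) - k := if_pos he
      have h3 : m * a ≤ m * x e := Nat.mul_le_mul_left m h1.1
      have h4 : m * x e ≤ m * a + m * D := by
        have := Nat.mul_le_mul_left m h1.2
        rwa [Nat.mul_add] at this
      rw [h2]
      refine ⟨by omega, by omega, by omega, by omega, fun _ => by omega⟩
    · have h1 := hout e he
      have h2 : q e = max (m * D + 4 * D + 1) (2 * (m * x e) - 2 * k) := if_neg he
      have h3 : (m + 4) * D = m * D + 4 * D := by ring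
      have h4 : 2 * m * x e = 2 * (m * x e) := by ring
      have h5 : 4 * m * a = 4 * (m * a) := by ring
      rw [h3, h4, h5] at h1
      rw [h2]
      refine ⟨by omega, by omega, by omega, by omega, fun h => absurd h he⟩
  have hp1 : InIntCone G (fun e => 4 * (2 * m + 7) * (2 * (m * x e) - q e)) := by
    refine span4 G v hv H hH ((2 * m + 7) * k) _ (fun e he => ?_) (fun e => ?_) fun e => ?_
    · show 4 * (2 * m + 7) * (2 * (m * x e) - q e) = 4 * ((2 * m + 7) * k)
      rw [(hq1 e).2.2.2.2 he]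
      ring
    · exact ⟨(2 * m + 7) * (2 * (m * x e) - q e), by ring⟩
    · show 4 * (2 * m + 7) * (2 * (m * x e) - q e) ≤ 8 * ((2 * m + 7) * k)
      calc 4 * (2 * m + 7) * (2 * (m * x e) - q e) ≤ 4 * (2 * m + 7) * (2 * k) :=
            Nat.mul_le_mul_left _ (hq1 e).2.2.2.1
        _ = 8 * ((2 * m + 7) * k) := by ring
  have hp2 : InIntCone G (fun e => 2 * (2 * (2 * m + 7) * q e)) := by
    refine cover_evenK (m + 2) (by omega) G v hv hK (fun e => 2 * (2 * m + 7) * q e) ?_
    intro e f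
    show (m + 2 + 2) * (2 * (2 * m + 7) * q e) + 2 * (m + 2 - 2) * (3 * (m + 2) + 5) ≤
      (3 * (m + 2) - 2) * (2 * (2 * m + 7) * q f)
    have h1 := (hq1 e).2.1
    have h2 := (hq1 f).1
    have h3 : m + 2 - 2 = m := by omega
    have h4 : 3 * (m + 2) - 2 = 3 * m + 4 := by omega
    rw [h3, h4]
    calc (m + 2 + 2) * (2 * (2 * m + 7) * q e) + 2 * m * (3 * (m + 2) + 5)
        ≤ (m + 2 + 2) * (2 * (2 * m + 7) * (3 * (m * D) + 4 * D + 1)) +
            2 * m * (3 * (m + 2) + 5) :=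
          Nat.add_le_add_right (Nat.mul_le_mul_left _ (Nat.mul_le_mul_left _ h1)) _
      _ ≤ (3 * m + 4) * (2 * (2 * m + 7) * (m * D + 4 * D + 1)) := by nlinarith
      _ ≤ (3 * m + 4) * (2 * (2 * m + 7) * q f) :=
          Nat.mul_le_mul_left _ (Nat.mul_le_mul_left _ h2)
  refine intCone_add G hp1 hp2 fun e => ?_
  show w e = 4 * (2 * m + 7) * (2 * (m * x e) - q e) + 2 * (2 * (2 * m + 7) * q e)
  have h1 := (hq1 e).2.2.1
  obtain ⟨y, hy⟩ : ∃ y, 2 * (m * x e) = q e + y := ⟨2 * (m * x e) - q e, by omega⟩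
  rw [hx e, hy, Nat.add_sub_cancel_left]
  calc 8 * m * (2 * m + 7) * x e = 4 * (2 * m + 7) * (2 * (m * x e)) := by ring
    _ = 4 * (2 * m + 7) * (q e + y) := by rw [hy]
    _ = 4 * (2 * m + 7) * y + 2 * (2 * (2 * m + 7) * q e) := by ring

end Pool.Agent.Run7.h335.UM
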